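import Pool.Agent.W223.AC.StmsP
import Pool.Agent.W989.AC.MULT
import Pool.Agent.W131.AC.GROW

/-!
# Size of elements of `I ^ m` at all places near the zeros of `I`
-/

set_option autoImplicit false

namespace Pool.Agent.W756.AC

open Polynomial IsDedekindDomain NumberField
open Pool.Agent.W223.AC
open Pool.Agent.W125.CV (fv fv_int)

variable {L : Type} [Field L] [NumberField L]

theorem fv_add (v : HeightOneSpectrum (𝓞 L)) (x y : L) : fv v (x + y) ≤ max (fv v x) (fv v y) := by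
  have h2 := HeightOneSpectrum.adicAbv_add_le_max L v x y
  rw [← FinitePlace.norm_embedding, ← FinitePlace.norm_embedding,
    ← FinitePlace.norm_embedding] at h2
  exact h2

theorem fv_nat (v : HeightOneSpectrum (𝓞 L)) (n : ℕ) : fv v (n : L) ≤ 1 := by
  have := fv_int v (n : ℤ)
  simpa using this

omit [NumberField L] in
theorem w_add (w : InfinitePlace L) (x y : L) : w (x + y) ≤ w x + w y := w.1.add_le _ _

omit [NumberField L] in
theorem w_nat (w : InfinitePlace L) (n : ℕ) : w (n : L) = n := by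
  rw [← InfinitePlace.norm_embedding_eq w, map_natCast, Complex.norm_natCast]

omit [NumberField L] in
theorem w_rat (w : InfinitePlace L) (a : ℚ) : w (a : L) = |(a : ℝ)| := by
  rw [← InfinitePlace.norm_embedding_eq w, map_ratCast, Complex.norm_ratCast]

/-- the property -/
def Q {A : Type} [CommRing A] {s : ℕ} (z : Fin (s + 1) → A) (m : ℕ) (g : A) : Prop :=
  ∃ (n : ℕ) (K : ℝ), n ≠ 0 ∧ 1 ≤ K ∧ ∀ (L : Type) [Field L] [NumberField L] (φ : A →+* L)
      (μ : ℝ), 0 ≤ μ → μ ≤ 1 →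
      (∀ v : HeightOneSpectrum (𝓞 L), (∀ i, fv v (φ (z i)) ≤ μ) →
        fv v (φ g) * fv v (n : L) ≤ μ ^ m) ∧
      ∀ w : InfinitePlace L, (∀ i, w (φ (z i)) ≤ μ) → w (φ g) ≤ K * μ ^ m

section
variable {A : Type} [CommRing A] {s : ℕ} {z : Fin (s + 1) → A}

theorem Q_zero (m : ℕ) : Q z m 0 := by
  refine ⟨1, 1, one_ne_zero, le_rfl, fun L _ _ φ μ h0 h1 => ⟨fun v _ => ?_, fun w _ => ?_⟩⟩
  · rw [map_zero, map_zero, zero_mul]; exact pow_nonneg h0 _
  · rw [map_zero, map_zero, one_mul]; exact pow_nonneg h0 _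

theorem Q_gen (i : Fin (s + 1)) : Q z 1 (z i) := by
  refine ⟨1, 1, one_ne_zero, le_rfl, fun L _ _ φ μ h0 h1 => ⟨fun v h => ?_, fun w h => ?_⟩⟩
  · rw [Nat.cast_one, map_one, mul_one, pow_one]; exact h i
  · rw [one_mul, pow_one]; exact h i

theorem Q_add {m : ℕ} {g g' : A} (h : Q z m g) (h' : Q z m g') : Q z m (g + g') := by
  obtain ⟨n, K, hn, hK, H⟩ := h
  obtain ⟨n', K', hn', hK', H'⟩ := h'
  refine ⟨n * n', K + K', mul_ne_zero hn hn', by linarith, fun L _ _ φ μ h0 h1 =>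
    ⟨fun v hv => ?_, fun w hw => ?_⟩⟩
  · have a1 := (H L φ μ h0 h1).1 v hv
    have a2 := (H' L φ μ h0 h1).1 v hv
    have b1 := fv_nat v n
    have b2 := fv_nat v n'
    have c1 := (fv v).nonneg (n : L)
    have c2 := (fv v).nonneg (n' : L)
    have p := pow_nonneg h0 m
    rw [map_add, Nat.cast_mul, map_mul]
    have d1 : fv v (φ g) * (fv v (n : L) * fv v (n' : L)) ≤ μ ^ m := by
      rw [← mul_assoc]
      calc _ ≤ μ ^ m * 1 := mul_le_mul a1 b2 c2 p
        _ = _ := mul_one _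
    have d2 : fv v (φ g') * (fv v (n : L) * fv v (n' : L)) ≤ μ ^ m := by
      rw [mul_comm (fv v (n : L)), ← mul_assoc]
      calc _ ≤ μ ^ m * 1 := mul_le_mul a2 b1 c1 p
        _ = _ := mul_one _
    refine (mul_le_mul_of_nonneg_right (fv_add v _ _) (mul_nonneg c1 c2)).trans ?_
    rcases max_cases (fv v (φ g)) (fv v (φ g')) with h | h
    · rw [h.1]; exact d1
    · rw [h.1]; exact d2
  · rw [map_add, add_mul]
    exact (w_add w _ _).trans (add_le_add ((H L φ μ h0 h1).2 w hw) ((H' L φ μ h0 h1).2 w hw))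

theorem Q_mul {m m' : ℕ} {g g' : A} (h : Q z m g) (h' : Q z m' g') : Q z (m + m') (g * g') := by
  obtain ⟨n, K, hn, hK, H⟩ := h
  obtain ⟨n', K', hn', hK', H'⟩ := h'
  refine ⟨n * n', K * K', mul_ne_zero hn hn', by nlinarith, fun L _ _ φ μ h0 h1 =>
    ⟨fun v hv => ?_, fun w hw => ?_⟩⟩
  · have a1 := (H L φ μ h0 h1).1 v hv
    have a2 := (H' L φ μ h0 h1).1 v hv
    rw [map_mul, map_mul, Nat.cast_mul, map_mul, pow_add, mul_mul_mul_comm]
    exact mul_le_mul a1 a2 (mul_nonneg ((fv v).nonneg _) ((fv v).nonneg _)) (pow_nonneg h0 _)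
  · rw [map_mul, map_mul, pow_add, mul_mul_mul_comm]
    exact mul_le_mul ((H L φ μ h0 h1).2 w hw) ((H' L φ μ h0 h1).2 w hw)
      (w.1.nonneg _) (mul_nonneg (by linarith) (pow_nonneg h0 _))

end

theorem Q_bdd {A : Type} [CommRing A] [Algebra ℚ[X] A] [Module.Finite ℚ[X] A] (a : ℚ) (s : ℕ)
    (z : Fin (s + 1) → A) (hz : z 0 = tt A - algebraMap ℚ[X] A (C a)) (c : A) : Q z 0 c := by
  obtain ⟨n', hn', hI⟩ := Pool.Agent.W989.AC.MULT.t A c
  obtain ⟨k, K', hK', H⟩ := Pool.Agent.W131.AC.t A _ hI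
  have hd : (a.den : ℕ) ≠ 0 := a.den_nz
  have hb : (1 : ℝ) ≤ 1 + |(a : ℝ)| := by have := abs_nonneg (a : ℝ); linarith
  refine ⟨n' * a.den ^ k, K' * (1 + |(a : ℝ)|) ^ k, mul_ne_zero hn' (pow_ne_zero _ hd),
    by nlinarith [one_le_pow₀ hb (n := k)], fun L _ _ φ μ h0 h1 => ⟨fun v hv => ?_, fun w hw => ?_⟩⟩
  · have ht : φ (tt A) = φ (z 0) + (a : L) := by
      have h2 : φ (algebraMap ℚ[X] A (C a)) = (a : L) := by
        exact eq_ratCast ((φ.comp (algebraMap ℚ[X] A)).comp C) a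
      rw [hz, map_sub, h2]; ring
    have e1 := (H L φ).1 v
    have e2 : fv v (φ (tt A)) ≤ max 1 (fv v (a : L)) := by
      rw [ht]
      exact (fv_add v _ _).trans (max_le_max_right _ ((hv 0).trans h1))
    have e3 : max (fv v (φ (tt A))) 1 ≤ max 1 (fv v (a : L)) := max_le e2 (le_max_left _ _)
    have e4 : fv v (a : L) * fv v (a.den : L) ≤ 1 := by
      rw [← map_mul]
      have h3 : (a : L) * (a.den : L) = (a.num : L) := by
        have := Rat.mul_den_eq_num a
        have h4 := congrArg (fun q : ℚ => (q : L)) this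
        push_cast at h4
        exact h4
      rw [h3]; exact fv_int v _
    have e5 : max 1 (fv v (a : L)) * fv v (a.den : L) ≤ 1 := by
      rcases max_cases 1 (fv v (a : L)) with h | h
      · rw [h.1, one_mul]; exact fv_nat v _
      · rw [h.1]; exact e4
    have e6 : 0 ≤ fv v (a.den : L) := (fv v).nonneg _
    rw [pow_zero, Nat.cast_mul, Nat.cast_pow, map_mul, map_pow, ← mul_assoc, ← map_mul]
    have e7 : φ c * (n' : L) = φ ((n' : A) * c) := by
      rw [map_mul, map_natCast, mul_comm]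
    rw [e7]
    calc fv v (φ ((n' : A) * c)) * fv v (a.den : L) ^ k
        ≤ max 1 (fv v (a : L)) ^ k * fv v (a.den : L) ^ k := by
          refine mul_le_mul_of_nonneg_right (e1.trans ?_) (pow_nonneg e6 _)
          exact pow_le_pow_left₀ (le_max_of_le_right zero_le_one) e3 _
      _ = (max 1 (fv v (a : L)) * fv v (a.den : L)) ^ k := (mul_pow _ _ _).symm
      _ ≤ 1 := pow_le_one₀ (mul_nonneg (le_max_of_le_left zero_le_one) e6) e5
  · have ht : φ (tt A) = φ (z 0) + (a : L) := by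
      have h2 : φ (algebraMap ℚ[X] A (C a)) = (a : L) := by
        exact eq_ratCast ((φ.comp (algebraMap ℚ[X] A)).comp C) a
      rw [hz, map_sub, h2]; ring
    have e1 := (H L φ).2 w
    have e2 : w (φ (tt A)) ≤ 1 + |(a : ℝ)| := by
      rw [ht]
      refine (w_add w _ _).trans ?_
      rw [w_rat]
      linarith [hw 0]
    have e3 : max (w (φ (tt A))) 1 ≤ 1 + |(a : ℝ)| := max_le e2 hb
    have e4 : w (φ ((n' : A) * c)) ≤ K' * (1 + |(a : ℝ)|) ^ k := by
      refine e1.trans (mul_le_mul_of_nonneg_left ?_ (by linarith))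
      exact pow_le_pow_left₀ (le_max_of_le_right zero_le_one) e3 _
    rw [map_mul, map_natCast, map_mul, w_nat] at e4
    have e5 : (1 : ℝ) ≤ n' := by exact_mod_cast Nat.one_le_iff_ne_zero.2 hn'
    have e6 : 0 ≤ w (φ c) := w.1.nonneg _
    rw [pow_zero, mul_one]
    nlinarith

theorem t : StmtLOCP := by
  intro A _ _ _ a s z hz m
  have hb : ∀ c : A, Q z 0 c := Q_bdd a s z hz
  have hI : ∀ y ∈ Ideal.span (Set.range z), Q z 1 y := by
    intro y hy
    refine Submodule.span_induction ?_ (Q_zero 1) (fun x y _ _ hx hy => Q_add hx hy) ?_ hy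
    · rintro _ ⟨i, rfl⟩
      exact Q_gen i
    · intro c y _ hy
      have := Q_mul (hb c) hy
      rw [zero_add] at this
      exact this
  suffices H : ∀ g ∈ Ideal.span (Set.range z) ^ m, Q z m g from H
  induction m with
  | zero => intro g _; exact hb g
  | succ m ih =>
    intro g hg
    rw [pow_succ] at hg
    refine Submodule.mul_induction_on hg (fun x hx y hy => ?_) (fun x y hx hy => Q_add hx hy)
    exact Q_mul (ih x hx) (hI y hy)

end Pool.Agent.W756.AC
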